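import Pool.Agent.H18.KC.Stmts

/-!
# Module POL of board `kc`: the polarisation inequality
-/

set_option autoImplicit false

open Finset

namespace Pool.Agent.H1.KC

open Pool.Agent.H18.KC

section

variable {α V : Type} [DecidableEq α] [NormedAddCommGroup V] [InnerProductSpace ℝ V]

theorem UpN_succ (ρ : Equiv.Perm α →* (V →ₗ[ℝ] V)) (x : ℕ → α) (p k : ℕ) (v : V) :
    UpN ρ x p (k + 1) v = Up ρ x (p + k) (UpN ρ x p k v) := rfl

theorem Up_zero (ρ : Equiv.Perm α →* (V →ₗ[ℝ] V)) (x : ℕ → α) (j : ℕ) :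
    Up ρ x j (0 : V) = 0 := by
  simp [Up]

theorem step_arith (a b c k q m A B C : ℝ) (hm : 0 < m + k) (hA : 0 < A)
    (hq : a = q + 1) (hb : b = m + k + 1) (hc : c = m - 2 * k) (hqk : q = 2 * m - k)
    (h : b * (c * (m + k) * B * A + a * B ^ 2) ≤ q * (m + k) * C * A)
    (ih : (m + k) * k * (m - k + 1) * A ≤ a * B) (hB : 0 ≤ B) (hb0 : 0 ≤ b) :
    b * (k + 1) * (m - k) * B ≤ q * C := by
  have h1 : b * ((m + k) * k * (m - k + 1) * A * B) ≤ b * (a * B ^ 2) := by
    apply mul_le_mul_of_nonneg_left _ hb0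
    calc (m + k) * k * (m - k + 1) * A * B ≤ a * B * B := by gcongr
      _ = a * B ^ 2 := by ring
  have h2 : ((m + k) * A) * (b * (k + 1) * (m - k) * B) ≤ ((m + k) * A) * (q * C) := by
    calc ((m + k) * A) * (b * (k + 1) * (m - k) * B)
        = b * (c * (m + k) * B * A) + b * ((m + k) * k * (m - k + 1) * A * B) := by
          rw [hc]; ring
      _ ≤ b * (c * (m + k) * B * A) + b * (a * B ^ 2) := by linarith
      _ = b * (c * (m + k) * B * A + a * B ^ 2) := by ring
      _ ≤ q * (m + k) * C * A := h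
      _ = _ := by ring
  exact le_of_mul_le_mul_left h2 (by positivity)

end

theorem pol (hUin : UINStmt) (hPo1 : PO1Stmt) (hPo2 : PO2Stmt) : POLStmt := by
  intro α V _ _ _ ρ x m v hρ hx hm h1 h2
  have inv : ∀ k, k ≤ m → Inv ρ x 0 (m + k) (UpN ρ x m k v) ∧
      Inv ρ x (m + k) (3 * m) (UpN ρ x m k v) := by
    intro k
    induction k with
    | zero => intro _; exact ⟨h1, h2⟩
    | succ k ih =>
      intro hk
      obtain ⟨i1, i2⟩ := ih (by omega)
      have e : 3 * m = (m + k) + (2 * m - k) := by omega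
      rw [e] at i2
      have := hUin α V ρ x (m + k) (2 * m - k) (UpN ρ x m k v)
        (fun i j hi hj => hx i j (by omega) (by omega)) (by omega) i1 i2
      rw [UpN_succ]
      refine ⟨this.1, ?_⟩
      rw [e]
      exact this.2
  have step : ∀ k, k < m → ((m : ℝ) + k + 1) * (k + 1) * (m - k) * ‖UpN ρ x m k v‖ ^ 2 ≤
      (2 * m - k) * ‖UpN ρ x m (k + 1) v‖ ^ 2 := by
    intro k
    induction k with
    | zero =>
      intro _
      have := hPo1 α V ρ x m (2 * m) v hρ (fun i j hi hj => hx i j (by omega) (by omega)) hm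
        (by omega) h1 (by rw [show m + 2 * m = 3 * m by ring]; exact h2)
      push_cast at this ⊢
      have e : UpN ρ x m (0 + 1) v = Up ρ x m v := rfl
      have e0 : UpN ρ x m 0 v = v := rfl
      rw [e, e0]
      nlinarith [this]
    | succ k ih =>
      intro hk
      have ih := ih (by omega)
      obtain ⟨i1, i2⟩ := inv k (by omega)
      obtain ⟨q, hq⟩ : ∃ q, 2 * m = q + (k + 1) := ⟨2 * m - (k + 1), by omega⟩
      have hqR : (q : ℝ) = 2 * m - (k + 1) := by
        have : ((2 * m : ℕ) : ℝ) = ((q + (k + 1) : ℕ) : ℝ) := by rw [hq]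
        push_cast at this
        linarith
      have := hPo2 α V ρ x (m + k) q (UpN ρ x m k v) hρ
        (fun i j hi hj => hx i j (by omega) (by omega)) (by omega) (by omega) i1
        (by rw [show m + k + q + 1 = 3 * m by omega]; exact i2)
      rw [UpN_succ ρ x m (k + 1), show m + (k + 1) = (m + k) + 1 by ring,
        UpN_succ ρ x m k v]
      rw [UpN_succ] at ih
      by_cases hz : UpN ρ x m k v = 0
      · rw [hz, Up_zero, Up_zero]
        simp
      have hA : 0 < ‖UpN ρ x m k v‖ ^ 2 := by positivity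
      set A := ‖UpN ρ x m k v‖ ^ 2 with hAdef
      have e4 : ‖Up ρ x (m + k) (UpN ρ x m k v)‖ ^ 4 = (‖Up ρ x (m + k) (UpN ρ x m k v)‖ ^ 2) ^ 2 := by
        ring
      rw [e4] at this
      set B := ‖Up ρ x (m + k) (UpN ρ x m k v)‖ ^ 2 with hBdef
      set C := ‖Up ρ x (m + k + 1) (Up ρ x (m + k) (UpN ρ x m k v))‖ ^ 2 with hCdef
      have hmk : (k : ℝ) + 1 < m := by exact_mod_cast hk
      have hk0 : (0:ℝ) ≤ k := Nat.cast_nonneg k
      have key := step_arith ((q : ℝ) + 1) ((m : ℝ) + (k + 1) + 1) ((m : ℝ) - 2 * (k + 1)) (k + 1) q m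
        A B C (by linarith) hA rfl rfl rfl hqR ?_ ?_ (by positivity) (by positivity)
      · push_cast
        rw [hqR] at key
        linarith [key]
      · push_cast at this
        have e1 : ((m : ℝ) + (k + 1) + 1) * (((m : ℝ) - 2 * (k + 1)) * (m + (k + 1)) * B * A +
          (q + 1) * B ^ 2) = ((m : ℝ) + k + 2) * ((q - (m + k + 1)) * (m + k + 1) * B * A +
          (q + 1) * B ^ 2) := by
          rw [hqR]; ring
        rw [e1]
        calc _ ≤ q * (m + k + 1) * C * A := this
          _ = _ := by ring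
      · calc ((m : ℝ) + (k + 1)) * (k + 1) * (m - (k + 1) + 1) * A
            = ((m : ℝ) + k + 1) * (k + 1) * (m - k) * A := by ring
          _ ≤ (2 * m - k) * B := ih
          _ = _ := by rw [hqR]; ring
  have main : ∀ k, k ≤ m → ∀ r, m = k + r →
      ((Nat.factorial (m + k) : ℝ) * Nat.factorial k * Nat.factorial (m + r)) * ‖v‖ ^ 2 ≤
      ((Nat.factorial r : ℝ) * Nat.factorial (2 * m)) * ‖UpN ρ x m k v‖ ^ 2 := by
    intro k
    induction k with
    | zero =>
      intro _ r hr
      have hr' : m = r := by omega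
      subst hr'
      have e0 : UpN ρ x m 0 v = v := rfl
      rw [e0, show m + m = 2 * m by ring]
      apply le_of_eq
      simp
    | succ k ih =>
      intro hk r hr
      have ih := ih (by omega) (r + 1) (by omega)
      have st := step k (by omega)
      have hmR : (m : ℝ) = k + 1 + r := by
        rw [hr]; push_cast; ring
      set T := ‖UpN ρ x m k v‖ ^ 2
      set T' := ‖UpN ρ x m (k + 1) v‖ ^ 2
      rw [show m + (r + 1) = (m + r) + 1 by ring, Nat.factorial_succ (m + r),
        Nat.factorial_succ r] at ih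
      rw [show m + (k + 1) = (m + k) + 1 by ring, Nat.factorial_succ (m + k),
        Nat.factorial_succ k]
      push_cast at ih ⊢
      have hpos : (0:ℝ) < m + r + 1 := by positivity
      have h3 : ((m : ℝ) + r + 1) * ((((m : ℝ) + k + 1) * (m + k).factorial) *
          ((k + 1) * k.factorial) * (m + r).factorial * ‖v‖ ^ 2) ≤
          ((m : ℝ) + r + 1) * ((r.factorial : ℝ) * (2 * m).factorial * T') := by
        calc ((m : ℝ) + r + 1) * ((((m : ℝ) + k + 1) * (m + k).factorial) *
          ((k + 1) * k.factorial) * (m + r).factorial * ‖v‖ ^ 2)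
            = ((m : ℝ) + k + 1) * (k + 1) * (((m + k).factorial : ℝ) * k.factorial *
              ((m + r + 1) * (m + r).factorial) * ‖v‖ ^ 2) := by ring
          _ ≤ ((m : ℝ) + k + 1) * (k + 1) * (((r : ℝ) + 1) * r.factorial * (2 * m).factorial * T) := by
              gcongr
          _ = ((r.factorial : ℝ) * (2 * m).factorial) *
              (((m : ℝ) + k + 1) * (k + 1) * (m - k) * T) := by rw [hmR]; ring
          _ ≤ ((r.factorial : ℝ) * (2 * m).factorial) * ((2 * m - k) * T') := by gcongr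
          _ = _ := by rw [hmR]; ring
      exact le_of_mul_le_mul_left h3 hpos
  have fin := main m le_rfl 0 (by omega)
  have hp : (0:ℝ) < Nat.factorial (2 * m) := by positivity
  rw [show m + m = 2 * m by ring, add_zero, Nat.factorial_zero, Nat.cast_one, one_mul] at fin
  have h5 : ((Nat.factorial m : ℝ) * ‖v‖) ^ 2 ≤ ‖UpN ρ x m m v‖ ^ 2 := by
    have h6 : ((Nat.factorial (2 * m) : ℝ)) * ((Nat.factorial m : ℝ) * ‖v‖) ^ 2 ≤
        (Nat.factorial (2 * m) : ℝ) * ‖UpN ρ x m m v‖ ^ 2 := by
      calc _ = (Nat.factorial (2 * m) : ℝ) * Nat.factorial m * Nat.factorial m * ‖v‖ ^ 2 := by ring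
        _ ≤ _ := fin
    exact le_of_mul_le_mul_left h6 hp
  exact le_of_sq_le_sq h5 (norm_nonneg _)

end Pool.Agent.H1.KC
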